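import Pool.Agent.W937.FG.Stm

/-!
Project FG (helper937), part P1: derivability in noncontracting coded grammars is primitive
recursive.
-/

set_option autoImplicit false

namespace Pool.Agent.W382.FG.P1

open Relation Pool.Agent.W937.FG

/-- the result of applying the rule `ρ` at position `i` of `α`, if allowed and of length at most
`L` -/
def one (L : ℕ) (ρ : List ℕ × List ℕ × List ℕ) (α : List ℕ) (i : ℕ) : List (List ℕ) :=
  if ((α.drop i).take ρ.1.length = ρ.1 ∧ (∀ B ∈ ρ.2.2, B ∉ α)) ∧
      (α.take i ++ ρ.2.1 ++ α.drop (i + ρ.1.length)).length ≤ L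
  then [α.take i ++ ρ.2.1 ++ α.drop (i + ρ.1.length)] else []

def succs (G : CG) (L : ℕ) (α : List ℕ) : List (List ℕ) :=
  G.2.flatMap fun ρ => (List.range (α.length + 1)).flatMap fun i => one L ρ α i

def next (G : CG) (L : ℕ) (R : List (List ℕ)) : List (List ℕ) :=
  R ++ R.flatMap fun α => succs G L α

def bd (G : CG) : ℕ := (G.2.flatMap fun ρ => ρ.2.1).foldr (fun x y => x + y) G.1

def iter (G : CG) (w : List ℕ) : List (List ℕ) :=
  (next G (w.length + 1))^[(bd G + 2) ^ (w.length + 1)] [[G.1]]

def D (G : CG) (w : List ℕ) : Bool := decide (w ∈ iter G w)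

/-! ### Correctness -/

theorem mem_succs {G : CG} {L : ℕ} {α β : List ℕ} :
    β ∈ succs G L α ↔ CStep G α β ∧ β.length ≤ L := by
  constructor
  · intro h
    simp only [succs, List.mem_flatMap, List.mem_range] at h
    obtain ⟨⟨l, r, F⟩, hρ, i, hi, h⟩ := h
    unfold one at h
    split_ifs at h with hc
    · rw [List.mem_singleton] at h
      subst h
      refine ⟨⟨α.take i, α.drop (i + l.length), l, r, F, hρ, ?_, rfl, hc.1.2⟩, hc.2⟩
      have h1 := hc.1.1
      simp only at h1
      calc α = α.take i ++ α.drop i := (List.take_append_drop i α).symm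
        _ = α.take i ++ ((α.drop i).take l.length ++ (α.drop i).drop l.length) :=
            congrArg (fun z => α.take i ++ z) (List.take_append_drop l.length (α.drop i)).symm
        _ = α.take i ++ l ++ α.drop (i + l.length) := by
            rw [h1, List.drop_drop, List.append_assoc]
    · simp at h
  · rintro ⟨⟨u, v, l, r, F, hρ, hα, hβ, hF⟩, hL⟩
    simp only [succs, List.mem_flatMap, List.mem_range]
    refine ⟨(l, r, F), hρ, u.length, ?_, ?_⟩
    · rw [hα]; simp only [List.length_append]; omega
    · unfold one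
      have e1 : (α.drop u.length).take l.length = l := by
        rw [hα, List.append_assoc, List.drop_left, List.take_left]
      have e2 : α.take u.length = u := by
        rw [hα, List.append_assoc, List.take_left]
      have e3 : α.drop (u.length + l.length) = v := by
        rw [hα, ← List.length_append, List.drop_left]
      have e4 : α.take u.length ++ r ++ α.drop (u.length + l.length) = β := by
        rw [e2, e3, hβ]
      rw [if_pos]
      · simp only [e4, List.mem_singleton]
      · refine ⟨⟨e1, hF⟩, ?_⟩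
        simp only [e4]
        exact hL

theorem mem_next {G : CG} {L : ℕ} {R : List (List ℕ)} {β : List ℕ} :
    β ∈ next G L R ↔ β ∈ R ∨ ∃ α ∈ R, CStep G α β ∧ β.length ≤ L := by
  simp only [next, List.mem_append, List.mem_flatMap, mem_succs]

theorem le_foldr (l : List ℕ) (a : ℕ) :
    a ≤ l.foldr (fun x y => x + y) a ∧ ∀ x ∈ l, x ≤ l.foldr (fun x y => x + y) a := by
  induction l with
  | nil => simp
  | cons b l ih =>
    simp only [List.foldr_cons, List.mem_cons]
    refine ⟨by omega, ?_⟩
    rintro x (rfl | hx)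
    · omega
    · have := ih.2 x hx
      omega

theorem start_le (G : CG) : G.1 ≤ bd G := (le_foldr _ _).1

theorem rule_le (G : CG) {l r F : List ℕ} (h : (l, r, F) ∈ G.2) : ∀ x ∈ r, x ≤ bd G := by
  intro x hx
  refine (le_foldr _ _).2 x ?_
  rw [List.mem_flatMap]
  exact ⟨(l, r, F), h, hx⟩

theorem cstep_le {G : CG} {α β : List ℕ} (h : CStep G α β) (hα : ∀ x ∈ α, x ≤ bd G) :
    ∀ x ∈ β, x ≤ bd G := by
  obtain ⟨u, v, l, r, F, hρ, h1, h2, -⟩ := h
  subst h1
  subst h2
  intro x hx
  simp only [List.mem_append] at hx hα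
  rcases hx with (hx | hx) | hx
  · exact hα x (Or.inl (Or.inl hx))
  · exact rule_le G hρ x hx
  · exact hα x (Or.inr hx)

theorem cstep_len {G : CG} (hG : ∀ ρ ∈ G.2, ρ.1.length ≤ ρ.2.1.length) {α β : List ℕ}
    (h : CStep G α β) : α.length ≤ β.length := by
  obtain ⟨u, v, l, r, F, hρ, h1, h2, -⟩ := h
  have := hG _ hρ
  simp only at this
  subst h1
  subst h2
  simp only [List.length_append]
  omega

def enc (K : ℕ) (α : List ℕ) : ℕ := Nat.ofDigits (K + 2) (α.map fun x => x + 1)

theorem enc_lt {K L : ℕ} {α : List ℕ} (h1 : ∀ x ∈ α, x ≤ K) (h2 : α.length ≤ L) :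
    enc K α < (K + 2) ^ L := by
  have := Nat.ofDigits_lt_base_pow_length (b := K + 2) (l := α.map fun x => x + 1)
    (by omega) (by
      intro x hx
      rw [List.mem_map] at hx
      obtain ⟨y, hy, rfl⟩ := hx
      have := h1 y hy
      omega)
  rw [List.length_map] at this
  exact lt_of_lt_of_le this (Nat.pow_le_pow_right (by omega) h2)

theorem enc_inj {K : ℕ} {α β : List ℕ} (h1 : ∀ x ∈ α, x ≤ K) (h2 : ∀ x ∈ β, x ≤ K)
    (h : enc K α = enc K β) : α = β := by
  have key : ∀ γ : List ℕ, (∀ x ∈ γ, x ≤ K) → Nat.digits (K + 2) (enc K γ) =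
      γ.map fun x => x + 1 := by
    intro γ hγ
    refine Nat.digits_ofDigits (K + 2) (by omega) _ ?_ ?_
    · intro x hx
      rw [List.mem_map] at hx
      obtain ⟨y, hy, rfl⟩ := hx
      have := hγ y hy
      omega
    · intro hne
      have := List.getLast_mem hne
      rw [List.mem_map] at this
      obtain ⟨y, -, hy⟩ := this
      rw [← hy]
      omega
  have h3 : (α.map fun x => x + 1) = β.map fun x => x + 1 := by
    rw [← key α h1, ← key β h2, h]
  exact List.map_injective_iff.mpr (fun a b hab => by simpa using hab) h3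

theorem stab (S : ℕ → Finset (List ℕ)) (c : ℕ) (mono : ∀ n, S n ⊆ S (n + 1))
    (det : ∀ n, S n = S (n + 1) → S (n + 1) = S (n + 2)) (card : ∀ n, (S n).card ≤ c) :
    ∀ m, S m ⊆ S c := by
  have hmono : Monotone S := monotone_nat_of_le_succ mono
  have h1 : ∃ n ≤ c, S n = S (n + 1) := by
    by_contra hcon
    push Not at hcon
    have h2 : ∀ n ≤ c + 1, n ≤ (S n).card := by
      intro n
      induction n with
      | zero => intro _; exact Nat.zero_le _
      | succ n ih =>
        intro hn
        have h3 := ih (by omega)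
        have h4 : (S n).card < (S (n + 1)).card :=
          Finset.card_lt_card (lt_of_le_of_ne (mono n) (hcon n (by omega)))
        omega
    have := h2 (c + 1) le_rfl
    have := card (c + 1)
    omega
  obtain ⟨n, hn, hS⟩ := h1
  have h2 : ∀ k, S (n + k) = S n ∧ S (n + k) = S (n + k + 1) := by
    intro k
    induction k with
    | zero => exact ⟨rfl, hS⟩
    | succ k ih =>
      refine ⟨?_, ?_⟩
      · rw [← ih.1, ih.2]; rfl
      · exact det (n + k) ih.2
  intro m
  rcases le_total m n with h | h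
  · exact (hmono h).trans (hmono hn)
  · obtain ⟨k, rfl⟩ := Nat.exists_eq_add_of_le h
    rw [(h2 k).1]
    exact hmono hn

theorem correct (G : CG) (w : List ℕ) (hG : ∀ ρ ∈ G.2, ρ.1.length ≤ ρ.2.1.length) :
    D G w = true ↔ ReflTransGen (CStep G) [G.1] w := by
  classical
  set L := w.length + 1 with hL
  have hit : ∀ n, (next G L)^[n + 1] [[G.1]] = next G L ((next G L)^[n] [[G.1]]) := fun n =>
    Function.iterate_succ_apply' _ _ _
  -- soundness and bounds
  have hs : ∀ n, ∀ β ∈ (next G L)^[n] [[G.1]], ReflTransGen (CStep G) [G.1] β ∧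
      (∀ x ∈ β, x ≤ bd G) ∧ β.length ≤ L := by
    intro n
    induction n with
    | zero =>
      intro β hβ
      simp only [Function.iterate_zero, id_eq, List.mem_singleton] at hβ
      subst hβ
      refine ⟨ReflTransGen.refl, ?_, ?_⟩
      · intro x hx
        rw [List.mem_singleton] at hx
        subst hx
        exact start_le G
      · simp only [List.length_singleton, hL]
        omega
    | succ n ih =>
      intro β hβ
      rw [hit, mem_next] at hβ
      rcases hβ with hβ | ⟨α, hα, h1, h2⟩
      · exact ih β hβ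
      · obtain ⟨i1, i2, -⟩ := ih α hα
        exact ⟨i1.tail h1, cstep_le h1 i2, h2⟩
  -- completeness
  have hc : ∀ β, ReflTransGen (CStep G) [G.1] β → β.length ≤ L →
      ∃ n, β ∈ (next G L)^[n] [[G.1]] := by
    intro β hβ
    induction hβ with
    | refl => intro _; exact ⟨0, by simp⟩
    | tail _ h ih =>
      intro hlen
      obtain ⟨n, hn⟩ := ih ((cstep_len hG h).trans hlen)
      refine ⟨n + 1, ?_⟩
      rw [hit, mem_next]
      exact Or.inr ⟨_, hn, h, hlen⟩
  -- stabilisation
  have hst := stab (fun n => ((next G L)^[n] [[G.1]]).toFinset) ((bd G + 2) ^ L)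
    (by
      intro n β hβ
      simp only [List.mem_toFinset] at hβ ⊢
      rw [hit, mem_next]
      exact Or.inl hβ)
    (by
      intro n hn
      have hn' : ∀ β, β ∈ (next G L)^[n] [[G.1]] ↔ β ∈ (next G L)^[n + 1] [[G.1]] := by
        intro β
        have := Finset.ext_iff.mp hn β
        simpa only [List.mem_toFinset] using this
      ext β
      simp only [List.mem_toFinset]
      rw [hit (n + 1), mem_next]
      conv_lhs => rw [hit n, mem_next]
      simp only [hn'])
    (by
      intro n
      have : (((next G L)^[n] [[G.1]]).toFinset).card ≤ (Finset.range ((bd G + 2) ^ L)).card := by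
        refine Finset.card_le_card_of_injOn (enc (bd G)) ?_ ?_
        · intro β hβ
          rw [Finset.mem_coe, List.mem_toFinset] at hβ
          rw [Finset.coe_range, Set.mem_Iio]
          exact enc_lt (hs n β hβ).2.1 (hs n β hβ).2.2
        · intro β hβ γ hγ h
          rw [Finset.mem_coe, List.mem_toFinset] at hβ hγ
          exact enc_inj (hs n β hβ).2.1 (hs n γ hγ).2.1 h
      rwa [Finset.card_range] at this)
  have hD : D G w = true ↔ w ∈ (next G L)^[(bd G + 2) ^ L] [[G.1]] := by
    unfold D iter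
    rw [decide_eq_true_iff]
  rw [hD]
  constructor
  · intro h
    exact (hs _ w h).1
  · intro h
    obtain ⟨n, hn⟩ := hc w h (by omega)
    have := hst n (List.mem_toFinset.mpr hn)
    exact List.mem_toFinset.mp this

/-! ### Primitive recursiveness -/

open Primrec

theorem prim_mem : PrimrecRel fun (α : List ℕ) (B : ℕ) => B ∈ α := by
  refine (PrimrecRel.exists_mem_list (R := fun a b : ℕ => a = b) Primrec.eq).of_eq ?_
  intro α B
  simp

theorem prim_ok : PrimrecRel fun (F α : List ℕ) => ∀ B ∈ F, B ∉ α := by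
  refine PrimrecRel.forall_mem_list (R := fun (B : ℕ) (α : List ℕ) => B ∉ α) ?_
  exact PrimrecPred.not (prim_mem.comp snd fst)

theorem prim_one : Primrec fun p : ((ℕ × (List ℕ × List ℕ × List ℕ)) × List ℕ) × ℕ =>
    one p.1.1.1 p.1.1.2 p.1.2 p.2 := by
  have hα : Primrec fun p : ((ℕ × (List ℕ × List ℕ × List ℕ)) × List ℕ) × ℕ => p.1.2 :=
    snd.comp fst
  have hi : Primrec fun p : ((ℕ × (List ℕ × List ℕ × List ℕ)) × List ℕ) × ℕ => p.2 := snd
  have hρ : Primrec fun p : ((ℕ × (List ℕ × List ℕ × List ℕ)) × List ℕ) × ℕ => p.1.1.2 :=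
    snd.comp (fst.comp fst)
  have hl : Primrec fun p : ((ℕ × (List ℕ × List ℕ × List ℕ)) × List ℕ) × ℕ => p.1.1.2.1 :=
    fst.comp hρ
  have hr : Primrec fun p : ((ℕ × (List ℕ × List ℕ × List ℕ)) × List ℕ) × ℕ => p.1.1.2.2.1 :=
    fst.comp (snd.comp hρ)
  have hF : Primrec fun p : ((ℕ × (List ℕ × List ℕ × List ℕ)) × List ℕ) × ℕ => p.1.1.2.2.2 :=
    snd.comp (snd.comp hρ)
  have hL : Primrec fun p : ((ℕ × (List ℕ × List ℕ × List ℕ)) × List ℕ) × ℕ => p.1.1.1 :=
    fst.comp (fst.comp fst)
  have hres : Primrec fun p : ((ℕ × (List ℕ × List ℕ × List ℕ)) × List ℕ) × ℕ =>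
      p.1.2.take p.2 ++ p.1.1.2.2.1 ++ p.1.2.drop (p.2 + p.1.1.2.1.length) :=
    list_append.comp (list_append.comp (list_take.comp hi hα) hr)
      (list_drop.comp (nat_add.comp hi (list_length.comp hl)) hα)
  unfold one
  refine Primrec.ite ?_ (list_cons.comp hres (Primrec.const [])) (Primrec.const [])
  refine PrimrecPred.and (PrimrecPred.and ?_ (prim_ok.comp hF hα)) ?_
  · exact Primrec.eq.comp (list_take.comp (list_length.comp hl) (list_drop.comp hi hα)) hl
  · exact nat_le.comp (list_length.comp hres) hL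

theorem prim_succs : Primrec fun p : (CG × ℕ) × List ℕ => succs p.1.1 p.1.2 p.2 := by
  have h1 : Primrec fun q : (((CG × ℕ) × List ℕ) × (List ℕ × List ℕ × List ℕ)) × ℕ =>
      (((q.1.1.1.2, q.1.2), q.1.1.2), q.2) :=
    Primrec.pair (Primrec.pair (Primrec.pair
      (snd.comp (fst.comp (fst.comp fst))) (snd.comp fst)) (snd.comp (fst.comp fst))) snd
  have h2 : Primrec fun q : (((CG × ℕ) × List ℕ) × (List ℕ × List ℕ × List ℕ)) × ℕ =>
      one q.1.1.1.2 q.1.2 q.1.1.2 q.2 := by
    have h := Primrec.comp prim_one h1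
    exact h
  have h3 : Primrec fun q : ((CG × ℕ) × List ℕ) × (List ℕ × List ℕ × List ℕ) =>
      List.range (q.1.2.length + 1) :=
    list_range.comp (succ.comp (list_length.comp (snd.comp fst)))
  have h4 : Primrec fun q : ((CG × ℕ) × List ℕ) × (List ℕ × List ℕ × List ℕ) =>
      (List.range (q.1.2.length + 1)).flatMap fun i => one q.1.1.2 q.2 q.1.2 i :=
    list_flatMap h3 h2
  have h5 : Primrec fun p : (CG × ℕ) × List ℕ => p.1.1.2 := snd.comp (fst.comp fst)
  have h6 : Primrec fun p : (CG × ℕ) × List ℕ => p.1.1.2.flatMap fun ρ =>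
      (List.range (p.2.length + 1)).flatMap fun i => one p.1.2 ρ p.2 i :=
    list_flatMap h5 h4
  exact h6

theorem prim_next : Primrec fun p : (CG × ℕ) × List (List ℕ) => next p.1.1 p.1.2 p.2 := by
  have h1 : Primrec fun q : ((CG × ℕ) × List (List ℕ)) × List ℕ => succs q.1.1.1 q.1.1.2 q.2 := by
    have h0 : Primrec fun q : ((CG × ℕ) × List (List ℕ)) × List ℕ => (q.1.1, q.2) :=
      Primrec.pair (fst.comp fst) snd
    have h := Primrec.comp prim_succs h0
    exact h
  have h2 : Primrec fun p : (CG × ℕ) × List (List ℕ) =>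
      p.2.flatMap fun α => succs p.1.1 p.1.2 α := list_flatMap snd h1
  have h3 : Primrec fun p : (CG × ℕ) × List (List ℕ) =>
      p.2 ++ p.2.flatMap fun α => succs p.1.1 p.1.2 α := list_append.comp snd h2
  exact h3

theorem prim_bd : Primrec bd := by
  have h1 : Primrec fun q : CG × (List ℕ × List ℕ × List ℕ) => q.2.2.1 :=
    fst.comp (snd.comp snd)
  have h2 : Primrec fun G : CG => G.2.flatMap fun ρ => ρ.2.1 := list_flatMap snd h1
  have h3 : Primrec fun q : CG × (ℕ × ℕ) => q.2.1 + q.2.2 :=
    nat_add.comp (fst.comp snd) (snd.comp snd)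
  have h4 : Primrec fun G : CG =>
      (G.2.flatMap fun ρ => ρ.2.1).foldr (fun x y => x + y) G.1 := by
    exact list_foldr (h := fun (_ : CG) (p : ℕ × ℕ) => p.1 + p.2) h2 fst h3
  exact h4

theorem prim_pow : Primrec fun p : ℕ × ℕ => p.1 ^ p.2 := by
  have h : Primrec fun p : ℕ × ℕ => (fun x => p.1 * x)^[p.2] 1 :=
    nat_iterate (f := fun p : ℕ × ℕ => p.2) (g := fun _ => 1)
      (h := fun p x => p.1 * x) snd (Primrec.const 1) (nat_mul.comp (fst.comp fst) snd)
  refine h.of_eq ?_
  rintro ⟨a, n⟩
  simp only [mul_left_iterate, mul_one]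

theorem prim_iter : Primrec fun p : CG × List ℕ => iter p.1 p.2 := by
  have hL : Primrec fun p : CG × List ℕ => p.2.length + 1 := succ.comp (list_length.comp snd)
  have h1 : Primrec fun p : CG × List ℕ => (bd p.1 + 2) ^ (p.2.length + 1) :=
    prim_pow.comp (Primrec.pair (nat_add.comp (prim_bd.comp fst) (Primrec.const 2)) hL)
  have h0 : Primrec fun p : CG × List ℕ => [p.1.1] :=
    list_cons.comp (fst.comp fst) (Primrec.const ([] : List ℕ))
  have h2 : Primrec fun p : CG × List ℕ => [[p.1.1]] :=
    list_cons.comp h0 (Primrec.const ([] : List (List ℕ)))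
  have h3 : Primrec fun q : (CG × List ℕ) × List (List ℕ) =>
      next q.1.1 (q.1.2.length + 1) q.2 :=
    prim_next.comp (Primrec.pair (Primrec.pair (fst.comp fst) (hL.comp fst)) snd)
  exact nat_iterate h1 h2 h3

theorem prim_D : Primrec₂ D := by
  have hm : PrimrecRel fun (R : List (List ℕ)) (w : List ℕ) => w ∈ R := by
    refine (PrimrecRel.exists_mem_list (R := fun a b : List ℕ => a = b) Primrec.eq).of_eq ?_
    intro R w
    simp
  exact (hm.comp prim_iter snd).decide

theorem main : PropP1 := ⟨D, prim_D, correct⟩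

end Pool.Agent.W382.FG.P1
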